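import Pool.Agent.W618.PC.Desc

/-!
# Finitely many points are put into the network
-/

open Set Topology Filter
open Pool.Agent.W618.PC

namespace Pool.Agent.W397.PC

/-- All the points of a finite set are joined to the network. -/
theorem shell (addarc : S_ADDARC) {X : Type} [MetricSpace X] [CompactSpace X] {M : ℕ}
    {F : ℕ → Set X} {j : ℕ} {Hb H : Set X} {ε τ : ℝ} (hF : Lev M F) (hj : j < M) (hτ : 0 < τ)
    (s : Finset X) : ∀ (B D : Set X) (l : X → ℝ) (κ : ℝ), Sh M F j Hb H B D l (s : Set X) ε κ →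
    (∀ p ∈ s, p ∈ B) →
    (∀ p ∈ s, ∃ z₀ ∈ Hb ∪ F 0, JoinedIn (F (j + 1) ∩ Metric.closedBall p ε) p z₀) →
    ∃ (B' D' : Set X) (l' : X → ℝ), Sh M F j Hb H B' D' l' ∅ ε (κ + s.card * τ) ∧ B ⊆ B' ∧
      D ⊆ D' ∧ ∀ x ∈ H ∪ B ∪ D, l' x = l x := by
  classical
  induction s using Finset.induction_on with
  | empty =>
    intro B D l κ hS _ _
    refine ⟨B, D, l, ?_, Subset.rfl, Subset.rfl, fun _ _ => rfl⟩
    simpa using hS
  | insert p s hp ih =>
    intro B D l κ hS hB hJ
    obtain ⟨z₀, hz₀, hJ₀⟩ := hJ p (Finset.mem_insert_self p s)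
    obtain ⟨B1, D1, l1, h1, h2, h3, h4⟩ := addarc X M F j Hb H B D l _ ε κ hF hj hS p
      (hB p (Finset.mem_insert_self p s)) z₀ hz₀ hJ₀ τ hτ
    have hs : ((insert p s : Finset X) : Set X) \ {p} = (s : Set X) := by
      ext x
      simp only [Finset.coe_insert, mem_diff, mem_insert_iff, Finset.mem_coe, mem_singleton_iff]
      constructor
      · rintro ⟨h | h, h'⟩
        · exact absurd h h'
        · exact h
      · intro h
        refine ⟨Or.inr h, ?_⟩
        rintro rfl
        exact hp h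
    rw [hs] at h1
    obtain ⟨B', D', l', g1, g2, g3, g4⟩ := ih B1 D1 l1 (κ + τ) h1
      (fun q hq => h2 (hB q (Finset.mem_insert_of_mem hq)))
      (fun q hq => hJ q (Finset.mem_insert_of_mem hq))
    refine ⟨B', D', l', ?_, h2.trans g2, h3.trans g3, fun x hx => ?_⟩
    · have hc : κ + τ + s.card * τ = κ + (insert p s).card * τ := by
        rw [Finset.card_insert_of_notMem hp]; push_cast; ring
      rw [← hc]
      exact g1
    · rw [g4 x (union_subset_union (union_subset_union Subset.rfl h2) h3 hx), h4 x hx]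

/-- The claim of the level induction. -/
structure Cl {X : Type} [MetricSpace X] (M : ℕ) (F : ℕ → Set X) (H : Set X) (l : X → ℝ) (ε τ : ℝ)
    (T : Finset X) (j d : ℕ) (H' : Set X) (l' : X → ℝ) : Prop where
  nw : Nw M F H' l'
  sub : H ⊆ H'
  lH : ∀ x ∈ H, l' x = l x
  int : ∀ x ∈ H', x ∉ H → x ∉ interior (F j)
  fin : ((H' \ H) ∩ F j).Finite
  T : ∀ t ∈ T, t ∉ F j → t ∈ H'
  desc : ∀ x ∈ H', ∃ z ∈ H ∪ F j, Desc l' (H' ∩ Metric.closedBall x (d * (2 * ε + τ))) x z

theorem level (addarc : S_ADDARC) {X : Type} [MetricSpace X] [CompactSpace X] {M : ℕ}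
    {F : ℕ → Set X} {H : Set X} {l : X → ℝ} {ε τ : ℝ} (hF : Lev M F) (hH : Nw M F H l)
    (hA : Acc M F H ε) (hε : 0 ≤ ε) (hτ : 0 < τ) (T : Finset X) (d : ℕ) : ∀ j, j + d = M →
    ∃ (H' : Set X) (l' : X → ℝ), Cl M F H l ε τ T j d H' l' := by
  classical
  induction d with
  | zero =>
    intro j hj
    have hj' : j = M := by omega
    subst hj'
    refine ⟨H, l, hH, Subset.rfl, fun _ _ => rfl, fun x hx hx' => absurd hx hx', ?_, ?_, ?_⟩
    · rw [diff_self, empty_inter]; exact finite_empty
    · intro t _ ht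
      rw [hF.top] at ht
      exact absurd (mem_univ t) ht
    · intro x hx
      refine ⟨x, Or.inl hx, Desc.refl ⟨hx, Metric.mem_closedBall_self ?_⟩⟩
      simp
  | succ d ih =>
    intro j hj
    have hjM : j < M := by omega
    obtain ⟨H1, l1, c⟩ := ih (j + 1) (by omega)
    have hH1c : IsClosed H1 := c.nw.closed
    have hFF : F j ⊆ interior (F (j + 1)) := hF.step j hjM
    have hF1 : F j ⊆ F (j + 1) := hFF.trans interior_subset
    set S : Set X := ((H1 \ H) ∩ F (j + 1)) ∪
      {t | t ∈ T ∧ t ∈ F (j + 1) ∧ t ∉ F j ∧ t ∉ H} with hSdef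
    have hSfin : S.Finite := by
      refine c.fin.union ?_
      exact (Finset.finite_toSet T).subset fun t ht => ht.1
    have hSF : S ⊆ F (j + 1) := by
      rintro x (hx | hx)
      · exact hx.2
      · exact hx.2.1
    have hSH : ∀ x ∈ S, x ∉ H := by
      rintro x (hx | hx)
      · exact hx.1.2
      · exact hx.2.2.2
    have hSFj : ∀ x ∈ S, x ∉ F j := by
      rintro x (hx | hx)
      · intro h
        exact c.int x hx.1.1 hx.1.2 (hFF h)
      · exact hx.2.2.1
    set l0 : X → ℝ := fun x => if x ∈ H1 then l1 x else (j : ℝ) + 1 with hl0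
    have hl0H : ∀ x ∈ H1, l0 x = l1 x := fun x hx => if_pos hx
    have hl0S : ∀ x ∈ S, l0 x = (j : ℝ) + 1 := by
      intro x hx
      by_cases hx1 : x ∈ H1
      · rw [hl0H x hx1]
        have h1 := c.nw.lo x hx1 (j + 1) (by omega)
        have h2 := c.nw.hi x hx1 (j + 1) (by omega)
        push_cast at h1 h2
        refine le_antisymm ?_ ?_
        · by_contra hcon
          exact h2 (not_le.1 hcon) (hSF hx)
        · by_contra hcon
          exact c.int x hx1 (hSH x hx) (h1 (not_le.1 hcon))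
      · exact if_neg hx1
    have hnw0 : Nw M F (H1 ∪ S) l0 := by
      refine ⟨hH1c.union hSfin.isClosed, ?_, ?_, ?_, ?_, ?_⟩
      · refine ContinuousOn.union_of_isClosed (c.nw.cont.congr hl0H) ?_ hH1c hSfin.isClosed
        exact (continuousOn_const (c := (j : ℝ) + 1)).congr hl0S
      · rintro x (hx | hx)
        · rw [hl0H x hx]; exact c.nw.nonneg x hx
        · rw [hl0S x hx]; positivity
      · rintro x (hx | hx) i hi hlt
        · rw [hl0H x hx] at hlt
          exact c.nw.lo x hx i hi hlt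
        · rw [hl0S x hx] at hlt
          have hlt' : j + 1 < i := by exact_mod_cast hlt
          exact hF.mono_int hlt' hi (hSF hx)
      · rintro x (hx | hx) i hi hlt
        · rw [hl0H x hx] at hlt
          exact c.nw.hi x hx i hi hlt
        · rw [hl0S x hx] at hlt
          have hlt' : i < j + 1 := by exact_mod_cast hlt
          intro hxi
          exact hSFj x hx (hF.mono (by omega) hjM.le hxi)
      · have hn1 : NetOn l0 H1 := NetOn.congr (l := l1) c.nw.net hl0H
        exact hn1.union (netOn_finite hSfin)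
    have hsh : Sh M F j H H1 S ∅ l0 (hSfin.toFinset : Set X) ε 0 := by
      refine ⟨le_rfl, ?_, hH.closed, c.sub, hH1c, hSfin.isClosed, isClosed_empty, hSF, hSFj, hSH,
        hl0S, empty_subset _, fun x hx => hx.elim, ?_, ?_, ?_, fun x hx => hx.elim⟩
      · rw [union_empty]; exact hnw0
      · rw [empty_inter]; exact finite_empty
      · intro x hx hxF
        by_cases hxH : x ∈ H
        · exact Or.inl hxH
        · exact Or.inr (Or.inl ⟨⟨hx, hxH⟩, hxF⟩)
      · intro x hx
        left
        simpa using hx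
    set m : ℕ := hSfin.toFinset.card with hm
    have hm0 : (0 : ℝ) < (m : ℝ) + 1 := by positivity
    have hτ' : 0 < τ / ((m : ℝ) + 1) := div_pos hτ hm0
    obtain ⟨B', D', l', g1, g2, g3, g4⟩ := shell addarc hF hjM hτ' hSfin.toFinset S ∅ l0 0 hsh
      (fun p hp => hSfin.mem_toFinset.1 hp)
      (fun p hp => hA (j + 1) (by omega) p (hSF (hSfin.mem_toFinset.1 hp)))
    rw [← hm] at g1
    have hκ : 0 + (m : ℝ) * (τ / ((m : ℝ) + 1)) ≤ τ := by
      rw [zero_add, mul_div_assoc', div_le_iff₀ hm0]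
      nlinarith
    have hl'H1 : ∀ x ∈ H1, l' x = l1 x := by
      intro x hx
      rw [g4 x (Or.inl (Or.inl hx)), hl0H x hx]
    have hSB : S ⊆ B' := g2
    have hrad : 2 * ε + (0 + (m : ℝ) * (τ / ((m : ℝ) + 1))) ≤ 2 * ε + τ := by linarith
    have hd0 : (0 : ℝ) ≤ d := Nat.cast_nonneg d
    have hr0 : 0 ≤ 2 * ε + τ := by linarith
    have hr1 : 0 ≤ (d : ℝ) * (2 * ε + τ) := mul_nonneg hd0 hr0
    have hr2 : ((d + 1 : ℕ) : ℝ) * (2 * ε + τ) = d * (2 * ε + τ) + (2 * ε + τ) := by
      push_cast; ring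
    refine ⟨H1 ∪ B' ∪ D', l', g1.nw, ?_, ?_, ?_, ?_, ?_, ?_⟩
    · exact fun x hx => Or.inl (Or.inl (c.sub hx))
    · intro x hx
      rw [hl'H1 x (c.sub hx), c.lH x hx]
    · rintro x ((hx | hx) | hx) hxH hxi
      · exact c.int x hx hxH (hFF (interior_subset hxi))
      · exact g1.BFj x hx (interior_subset hxi)
      · exact g1.Dint x hx hxi
    · refine g1.Dfin.subset ?_
      rintro x ⟨⟨(hx | hx) | hx, hxH⟩, hxF⟩
      · exact absurd (hFF hxF) (c.int x hx hxH)
      · exact absurd hxF (g1.BFj x hx)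
      · exact ⟨hx, hxF⟩
    · intro t ht htF
      by_cases h1 : t ∈ F (j + 1)
      · by_cases h2 : t ∈ H
        · exact Or.inl (Or.inl (c.sub h2))
        · exact Or.inl (Or.inr (hSB (Or.inr ⟨ht, h1, htF, h2⟩)))
      · exact Or.inl (Or.inl (c.T t ht h1))
    · have hBd : ∀ x ∈ B', ∃ z ∈ H ∪ F j,
          Desc l' ((H1 ∪ B' ∪ D') ∩ Metric.closedBall x (2 * ε + τ)) x z := by
        intro x hx
        rcases g1.Bd x hx with h | ⟨z, hz, hD⟩
        · exact h.elim
        · exact ⟨z, hz, hD.mono (inter_subset_inter_right _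
            (Metric.closedBall_subset_closedBall hrad))⟩
      rintro x ((hx | hx) | hx)
      · obtain ⟨z, hz, hD⟩ := c.desc x hx
        have hD' : Desc l' (H1 ∩ Metric.closedBall x (d * (2 * ε + τ))) x z :=
          hD.congr fun w hw => hl'H1 w hw.1
        have hD1 : Desc l' ((H1 ∪ B' ∪ D') ∩
            Metric.closedBall x (((d + 1 : ℕ) : ℝ) * (2 * ε + τ))) x z := by
          refine hD'.mono (inter_subset_inter (fun w hw => Or.inl (Or.inl hw))
            (Metric.closedBall_subset_closedBall ?_))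
          rw [hr2]; linarith
        by_cases hzH : z ∈ H
        · exact ⟨z, Or.inl hzH, hD1⟩
        · have hzF : z ∈ F (j + 1) := by
            rcases hz with h | h
            · exact absurd h hzH
            · exact h
          have hzt := hD'.target
          obtain ⟨w, hw, hDw⟩ := hBd z (hSB (Or.inl ⟨⟨hzt.1, hzH⟩, hzF⟩))
          refine ⟨w, hw, hD1.trans (hDw.mono (inter_subset_inter_right _ ?_))⟩
          intro y hy
          have h3 := hzt.2
          rw [Metric.mem_closedBall] at hy h3 ⊢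
          rw [hr2]
          linarith [dist_triangle y z x]
      · obtain ⟨z, hz, hD⟩ := hBd x hx
        refine ⟨z, hz, hD.mono (inter_subset_inter_right _
            (Metric.closedBall_subset_closedBall ?_))⟩
        rw [hr2]; linarith
      · obtain ⟨z, hz, hD⟩ := g1.Dd x hx
        refine ⟨z, hz, hD.mono (inter_subset_inter_right _
            (Metric.closedBall_subset_closedBall ?_))⟩
        rw [hr2]; linarith

theorem add (addarc : S_ADDARC) : S_ADD := by
  intro X _ _ M F H l ε hF hH hA hε τ hτ T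
  obtain ⟨H', l', c⟩ := level addarc hF hH hA hε hτ T M 0 (by omega)
  refine ⟨H', l', c.nw, c.sub, c.lH, fun x hx => ?_, c.desc⟩
  by_cases h : x ∈ F 0
  · exact Or.inr h
  · exact Or.inl (c.T x hx h)

end Pool.Agent.W397.PC
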