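import Pool.Agent.W618.PC.Desc

/-!
# The level function from the stages
-/

open Set Topology Filter
open Pool.Agent.W618.PC

namespace Pool.Agent.W397.PC

/-- the radii of accessibility -/
noncomputable def ep (d : ℝ) : ℕ → ℝ
  | 0 => d + 1
  | n + 1 => (1 / 4) ^ (n + 1) / 100

theorem ep_nonneg {d : ℝ} (hd : 0 ≤ d) (n : ℕ) : 0 ≤ ep d n := by
  cases n with
  | zero => unfold ep; linarith
  | succ n => unfold ep; positivity

theorem ep_succ_pos (d : ℝ) (n : ℕ) : 0 < ep d (n + 1) := by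
  unfold ep; positivity

/-- A stage. -/
structure St (X : Type) [MetricSpace X] (d : ℝ) (n : ℕ) where
  F : ℕ → Set X
  H : Set X
  l : X → ℝ
  lev : Lev (4 * 2 ^ n) F
  nw : Nw (4 * 2 ^ n) F H l
  acc : Acc (4 * 2 ^ n) F H (ep d n)

/-- The relation of a stage with the next one. -/
structure Rel {X : Type} [MetricSpace X] {d : ℝ} {n : ℕ} (u : ℕ → X) (s : St X d n)
    (t : St X d (n + 1)) : Prop where
  FF : ∀ i ≤ 4 * 2 ^ n, t.F (2 * i) = s.F i
  HH : s.H ⊆ t.H
  GG : ∃ G : ℝ → ℝ, Monotone G ∧ ∀ x ∈ s.H, t.l x = G (s.l x)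
  TT : ∀ k ≤ n, u k ∈ t.H ∪ s.F 0
  DD : ∀ x ∈ t.H, ∃ z ∈ s.H ∪ s.F 0,
    Desc t.l (t.H ∩ Metric.closedBall x (2 * ((4 * 2 ^ n : ℕ) : ℝ) *
      (2 * (ep d n + ep d (n + 1)) + ep d (n + 1)))) x z

theorem exists_next (step : S_STEP) {X : Type} [MetricSpace X] [CompactSpace X] (hP : Pol X)
    {d : ℝ} (hd : 0 ≤ d) (u : ℕ → X) {n : ℕ} (s : St X d n) : ∃ t : St X d (n + 1), Rel u s t := by
  classical
  obtain ⟨F', H', l', G, h1, h2, h3, h4, h5, h6, h7, h8, h9⟩ := step X hP (4 * 2 ^ n) s.F s.H s.l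
    (ep d n) s.lev s.nw s.acc (ep_nonneg hd n) (ep d (n + 1)) (ep_succ_pos d n)
    ((Finset.range (n + 1)).image u)
  have h : 2 * (4 * 2 ^ n) = 4 * 2 ^ (n + 1) := by ring
  rw [h] at h1 h3 h8
  exact ⟨⟨F', H', l', h1, h3, h8⟩, h2, h4, ⟨G, h5, h6⟩,
    fun k hk => h7 _ (Finset.mem_image_of_mem u (Finset.mem_range.2 (by omega))), h9⟩

theorem radius {d : ℝ} {n : ℕ} (hn : 1 ≤ n) :
    2 * ((4 * 2 ^ n : ℕ) : ℝ) * (2 * (ep d n + ep d (n + 1)) + ep d (n + 1)) ≤ (1 / 2) ^ n := by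
  obtain ⟨k, rfl⟩ : ∃ k, n = k + 1 := ⟨n - 1, by omega⟩
  have h1 : ep d (k + 1) = (1 / 4) ^ (k + 1) / 100 := rfl
  have h2 : ep d (k + 1 + 1) = (1 / 4) ^ (k + 1 + 1) / 100 := rfl
  rw [h1, h2]
  push_cast
  have h3 : (2 : ℝ) ^ (k + 1) * (1 / 4) ^ (k + 1) = (1 / 2) ^ (k + 1) := by
    rw [← mul_pow]; norm_num
  have h4 : (0 : ℝ) < (1 / 2) ^ (k + 1) := by positivity
  have h5 : 2 * (4 * (2 : ℝ) ^ (k + 1)) *
      (2 * ((1 / 4) ^ (k + 1) / 100 + (1 / 4) ^ (k + 1 + 1) / 100) + (1 / 4) ^ (k + 1 + 1) / 100)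
      = (22 / 100) * ((2 : ℝ) ^ (k + 1) * (1 / 4) ^ (k + 1)) := by
    rw [pow_succ (1 / 4 : ℝ) (k + 1)]; ring
  rw [h5, h3]
  linarith

theorem closedBall_mono_of_mem {X : Type} [MetricSpace X] {x y : X} {r s t : ℝ}
    (h : y ∈ Metric.closedBall x r) (hst : s + r ≤ t) :
    Metric.closedBall y s ⊆ Metric.closedBall x t := by
  intro z hz
  rw [Metric.mem_closedBall] at *
  linarith [dist_triangle z y x]

theorem main (step : S_STEP) (lim : S_LIM) : S_MAIN := by
  classical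
  intro X _ _ hP u F hF hJ
  -- the stage 0
  set d : ℝ := Metric.diam (univ : Set X) with hd'
  have hd : 0 ≤ d := Metric.diam_nonneg
  have hball : ∀ x : X, Metric.closedBall x (d + 1) = univ := by
    intro x
    refine eq_univ_of_forall fun y => ?_
    rw [Metric.mem_closedBall]
    have := Metric.dist_le_diam_of_mem (isCompact_univ (X := X)).isBounded (mem_univ y) (mem_univ x)
    linarith
  have h40 : 4 * 2 ^ 0 = 4 := by norm_num
  have hs0 : ∃ s : St X d 0, s.F = F ∧ s.H = ∅ := by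
    refine ⟨⟨F, ∅, fun _ => 0, ?_, ?_, ?_⟩, rfl, rfl⟩
    · rw [h40]; exact hF
    · rw [h40]
      exact ⟨isClosed_empty, continuousOn_empty _, fun x hx => hx.elim, fun x hx => hx.elim,
        fun x hx => hx.elim, fun δ _ => ⟨∅, fun x hx => hx.elim⟩⟩
    · rw [h40]
      intro i hi x hx
      obtain ⟨z, hz, hxz⟩ := hJ i hi x hx
      refine ⟨z, Or.inr hz, ?_⟩
      have : ep d 0 = d + 1 := rfl
      rw [this, hball, inter_univ]
      exact hxz
  obtain ⟨s0, hs0F, hs0H⟩ := hs0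
  -- all the stages
  obtain ⟨S, hS0, hS⟩ : ∃ S : (n : ℕ) → St X d n, S 0 = s0 ∧ ∀ n, Rel u (S n) (S (n + 1)) := by
    choose nx hnx using fun (n : ℕ) (s : St X d n) => exists_next step hP hd u s
    exact ⟨fun n => Nat.rec s0 (fun n s => nx n s) n, rfl, fun n => hnx n _⟩
  choose G hGm hG using fun n => (hS n).GG
  obtain ⟨L, hLc, hL04, hLle, hLge, hLD⟩ := lim X (fun n => (S n).F) (fun n => (S n).H)
    (fun n => (S n).l) G (fun n => (S n).lev) (fun n => (S n).nw) (fun n => (hS n).FF)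
    (fun n => (hS n).HH) hGm hG
  have hS0F : (S 0).F = F := by rw [hS0, hs0F]
  have hS0H : (S 0).H = ∅ := by rw [hS0, hs0H]
  have hF0 : ∀ n, (S n).F 0 = F 0 := by
    intro n
    induction n with
    | zero => rw [hS0F]
    | succ n ih =>
      rw [← ih]
      exact (hS n).FF 0 (Nat.zero_le _)
  simp only [hS0F] at hLle hLge
  have hL0 : ∀ x ∈ F 0, L x = 0 := by
    intro x hx
    have h1 := hLle 0 (by norm_num) x hx
    have h2 := (hL04 x).1
    push_cast at h1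
    linarith
  have hHm : ∀ n k, (S n).H ⊆ (S (n + k)).H := by
    intro n k
    induction k with
    | zero => exact Subset.rfl
    | succ k ih => exact ih.trans (hS (n + k)).HH
  -- (b)
  have hb : ∀ n, ∀ x ∈ (S (n + 1)).H, ∃ z ∈ (S n).H ∪ F 0, Desc L (Metric.closedBall x
      (2 * ((4 * 2 ^ n : ℕ) : ℝ) * (2 * (ep d n + ep d (n + 1)) + ep d (n + 1)))) x z := by
    intro n x hx
    obtain ⟨z, hz, hD⟩ := (hS n).DD x hx
    rw [hF0 n] at hz
    exact ⟨z, hz, (hLD (n + 1) _ x z inter_subset_left hD).mono inter_subset_right⟩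
  have hu : ∀ k, u k ∈ (S (k + 1)).H ∪ F 0 := by
    intro k
    have := (hS k).TT k le_rfl
    rwa [hF0 k] at this
  -- (d)
  have hd0 : ∀ n, ∀ x ∈ (S n).H ∪ F 0, ∃ z ∈ F 0, Desc L univ x z := by
    intro n
    induction n with
    | zero =>
      intro x hx
      rw [hS0H, empty_union] at hx
      exact ⟨x, hx, Desc.refl (mem_univ x)⟩
    | succ n ih =>
      rintro x (hx | hx)
      · obtain ⟨z, hz, hD⟩ := hb n x hx
        obtain ⟨w, hw, hD'⟩ := ih z hz
        exact ⟨w, hw, (hD.mono (subset_univ _)).trans hD'⟩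
      · exact ⟨x, hx, Desc.refl (mem_univ x)⟩
  -- (c)
  have hc : ∀ m, 1 ≤ m → ∀ k, ∀ x ∈ (S (m + k)).H ∪ F 0, ∃ z ∈ (S m).H ∪ F 0,
      Desc L (Metric.closedBall x (2 * (1 / 2) ^ m - 2 * (1 / 2) ^ (m + k))) x z := by
    intro m hm k
    induction k with
    | zero =>
      intro x hx
      refine ⟨x, hx, Desc.refl (Metric.mem_closedBall_self ?_)⟩
      simp
    | succ k ih =>
      have hpow : (1 / 2 : ℝ) ^ (m + (k + 1)) = (1 / 2) ^ (m + k) / 2 := by
        rw [← add_assoc, pow_succ]; ring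
      have hle : (1 / 2 : ℝ) ^ (m + k) ≤ (1 / 2) ^ m :=
        pow_le_pow_of_le_one (by norm_num) (by norm_num) (by omega)
      have hpos : (0 : ℝ) < (1 / 2) ^ (m + k) := by positivity
      rintro x (hx | hx)
      · obtain ⟨z, hz, hD⟩ := hb (m + k) x hx
        have hD1 : Desc L (Metric.closedBall x ((1 / 2) ^ (m + k))) x z :=
          hD.mono (Metric.closedBall_subset_closedBall (radius (by omega)))
        obtain ⟨w, hw, hD'⟩ := ih z hz
        refine ⟨w, hw, (hD1.mono (Metric.closedBall_subset_closedBall ?_)).trans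
          (hD'.mono (closedBall_mono_of_mem hD1.target ?_))⟩
        · rw [hpow]; linarith
        · rw [hpow]; linarith
      · refine ⟨x, Or.inr hx, Desc.refl (Metric.mem_closedBall_self ?_)⟩
        rw [hpow]; linarith
  refine ⟨L, hLc, hL04, hLle, hLge, fun k => hd0 (k + 1) _ (hu k), ?_⟩
  -- (e)
  intro η hη
  obtain ⟨m, hm1, hm⟩ : ∃ m : ℕ, 1 ≤ m ∧ 2 * (1 / 2 : ℝ) ^ m ≤ η / 2 := by
    obtain ⟨m, hm⟩ := exists_pow_lt_of_lt_one (show (0 : ℝ) < η / 4 by linarith)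
      (show (1 / 2 : ℝ) < 1 by norm_num)
    refine ⟨m + 1, by omega, ?_⟩
    rw [pow_succ]
    have : (0 : ℝ) < (1 / 2) ^ m := by positivity
    linarith
  have hη2 : 0 < η / 2 := by linarith
  obtain ⟨P1, hP1⟩ := (S m).nw.net (η / 2) hη2
  obtain ⟨P2, hP2F, hP2⟩ := (hF.fine 0 (by norm_num)).2 (η / 2) hη2
  refine ⟨P1 ∪ P2, fun k => ?_⟩
  have huk : u k ∈ (S (m + (k + 1))).H ∪ F 0 := by
    rcases hu k with h | h
    · refine Or.inl ?_
      have := hHm (k + 1) m h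
      rwa [add_comm (k + 1) m] at this
    · exact Or.inr h
  obtain ⟨z, hz, hD⟩ := hc m hm1 (k + 1) _ huk
  have hpos : (0 : ℝ) < (1 / 2) ^ (m + (k + 1)) := by positivity
  have hD2 : Desc L (Metric.closedBall (u k) (η / 2)) (u k) z :=
    hD.mono (Metric.closedBall_subset_closedBall (by linarith))
  have hsub : Metric.closedBall z (η / 2) ⊆ Metric.closedBall (u k) η :=
    closedBall_mono_of_mem hD2.target (by linarith)
  have hDη : Desc L (Metric.closedBall (u k) η) (u k) z :=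
    hD2.mono (Metric.closedBall_subset_closedBall (by linarith))
  rcases hz with hz | hz
  · obtain ⟨p, hp, h1 | h1⟩ := hP1 z hz
    · exact ⟨z, p, Finset.mem_union_left _ hp, hDη, Or.inl
        (((hLD m _ z p inter_subset_left h1).mono inter_subset_right).mono hsub)⟩
    · exact ⟨z, p, Finset.mem_union_left _ hp, hDη, Or.inr
        (((hLD m _ p z inter_subset_left h1).mono inter_subset_right).mono hsub)⟩
  · obtain ⟨p, hp, h1⟩ := hP2 z hz
    exact ⟨z, p, Finset.mem_union_right _ hp, hDη, Or.inl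
      (((Desc.of_joinedIn h1 (l := L) (c := 0) fun w hw => hL0 w hw.1).mono
        inter_subset_right).mono hsub)⟩

end Pool.Agent.W397.PC
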